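import Pool.Agent.T2H22.DF.Gen

/-!
# Clusters of primes `p` with `p + h` prime, for almost all even `h`

For every `r` there is `K` such that for every set `A` of at least `K` integers and for almost all `h` without a local
obstruction there are many `y` such that for at least `r` of the `a ∈ A` both `y + a` and `y + a + h` are primes. In
particular, for every `r` there is `C` such that for almost all even `h` there are `r` primes `p` in an interval of length
`C` with `p + h` prime; and this inside of the interval `(n + 4, 2 ^ (n + 4))` of the question.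
-/

set_option autoImplicit false

namespace Pool.Agent.Results.MP_b51559_nt.ClustersAlmostAllDifferences

open Finset

open Classical in
/-- the number of the primes `p ∈ [y, y + C]` with `p + h` prime -/
noncomputable def primesIn (C h y : ℕ) : ℕ :=
  ((Icc y (y + C)).filter (fun p => p.Prime ∧ (p + h).Prime)).card

open Classical in
/-- the number of the `y ∈ [h/6, h]` such that `[y, y + C]` contains at least `r` primes `p` with `p + h` prime -/
noncomputable def clusters (r C h : ℕ) : ℕ :=
  ((Icc (h / 6) h).filter (fun y => r ≤ primesIn C h y)).card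

open Classical in
/-- the number of the `y ∈ [h/6, h]` such that for at least `r` of the `a ∈ A` both `y + a` and `y + a + h` are primes -/
noncomputable def translates (r : ℕ) (A : Finset ℕ) (h : ℕ) : ℕ :=
  ((Icc (h / 6) h).filter (fun y => r ≤ (A.filter (fun a => (y + a).Prime ∧ (y + a + h).Prime)).card)).card

/-- no local obstruction: for every prime `q` there is an integer `y` such that none of the integers `y + a` and
`y + a + h`, `a ∈ A`, is divisible by `q` -/
def LocallyPossible (A : Finset ℕ) (h : ℕ) : Prop :=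
  ∀ q : ℕ, q.Prime → ∃ y : ℤ, ∀ a ∈ A, ¬ (q : ℤ) ∣ y + a ∧ ¬ (q : ℤ) ∣ y + a + h

open Classical in
/-- **Clusters of primes with a given difference, for almost all differences.** Let `r` be given. (1) For some `K` and
all sets `A` of at least `K` nonnegative integers there is `D` such that for almost all `h` without a local obstruction at
least `h / (log h) ^ D` integers `y ∈ [h/6, h]` are such that for at least `r` of the `a ∈ A` both `y + a` and
`y + a + h` are primes. (2) There are `C` and `D` such that for almost all even `h` at least `h / (log h) ^ D` intervals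
`[y, y + C]` with `h/6 ≤ y ≤ h` contain at least `r` primes `p` with `p + h` prime. (3) There is `C` such that for every
`ε > 0` there is `M` such that for all `n` and all `X` with `M (n + 4) ≤ X ≤ 2 ^ (n + 2)`, all but at most `ε X` of the
even `h ≤ X` are such that for some `y` the interval `[y, y + C]` contains at least `r` primes `p` with `p + h` prime, and
`n + 4 < p < p + h < 2 ^ (n + 4)` for these `p`. -/
theorem result (r : ℕ) :
    (∃ K : ℕ, ∀ A : Finset ℕ, K ≤ A.card → ∃ D : ℕ, ∀ ε : ℝ, 0 < ε → ∃ X₀ : ℕ, ∀ X : ℕ, X₀ ≤ X →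
      (((Icc 1 X).filter (fun h : ℕ => LocallyPossible A h ∧
        (translates r A h : ℝ) < h / Real.log h ^ D)).card : ℝ) ≤ ε * X) ∧
    (∃ (C D : ℕ), ∀ ε : ℝ, 0 < ε → ∃ X₀ : ℕ, ∀ X : ℕ, X₀ ≤ X →
      (((Icc 1 X).filter (fun h : ℕ => Even h ∧ (clusters r C h : ℝ) < h / Real.log h ^ D)).card : ℝ) ≤ ε * X) ∧
    ∃ C : ℕ, ∀ ε : ℝ, 0 < ε → ∃ M : ℕ, ∀ n X : ℕ, M * (n + 4) ≤ X → X ≤ 2 ^ (n + 2) →
      (((Icc 1 X).filter (fun h : ℕ => Even h ∧
        ¬ ∃ y : ℕ, n + 4 < y ∧ y + C + h < 2 ^ (n + 4) ∧ r ≤ primesIn C h y)).card : ℝ) ≤ ε * X := by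
  obtain ⟨C, D, hW⟩ := Pool.Agent.T2H22.DF.main_W r
  refine ⟨?_, ⟨C, D, hW⟩, C, fun ε hε => ?_⟩
  · obtain ⟨K, h⟩ := Pool.Agent.T2H22.DF.all_T r
    exact ⟨K, h⟩
  obtain ⟨X₀, h0⟩ : ∃ X₀ : ℕ, ∀ X : ℕ, X₀ ≤ X → (((Icc 1 X).filter (fun h : ℕ => Even h ∧
      (clusters r C h : ℝ) < h / Real.log h ^ D)).card : ℝ) ≤ ε / 2 * X := hW (ε / 2) (by positivity)
  refine ⟨max X₀ (max (C + 1) ⌈18 / ε⌉₊), fun n X hX1 hX2 => ?_⟩
  set M := max X₀ (max (C + 1) ⌈18 / ε⌉₊) with hM
  have hM1 : X₀ ≤ M := le_max_left _ _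
  have hM2 : C + 1 ≤ M := (le_max_left _ _).trans (le_max_right _ _)
  have hM3 : ⌈18 / ε⌉₊ ≤ M := (le_max_right _ _).trans (le_max_right _ _)
  have hMX : M * 4 ≤ X := (Nat.mul_le_mul_left M (by omega : 4 ≤ n + 4)).trans hX1
  have h1 := h0 X (by omega)
  have hsub : ((Icc 1 X).filter (fun h : ℕ => Even h ∧
        ¬ ∃ y : ℕ, n + 4 < y ∧ y + C + h < 2 ^ (n + 4) ∧ r ≤ primesIn C h y)) ⊆
      Icc 1 (9 * (n + 4)) ∪ (Icc 1 X).filter (fun h : ℕ => Even h ∧ (clusters r C h : ℝ) < h / Real.log h ^ D) := by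
    intro h hh
    rw [mem_filter, mem_Icc] at hh
    obtain ⟨⟨hh1, hh2⟩, hh3, hh4⟩ := hh
    rw [mem_union, mem_Icc, mem_filter, mem_Icc]
    by_cases hs : h ≤ 9 * (n + 4)
    · exact Or.inl ⟨hh1, hs⟩
    · right
      refine ⟨⟨hh1, hh2⟩, hh3, ?_⟩
      by_contra hcon
      push Not at hcon hh4
      have hlog : 0 < Real.log (h : ℝ) := Real.log_pos (by
        have : 1 < h := by omega
        exact_mod_cast this)
      have hpos : (0 : ℝ) < h / Real.log h ^ D := by
        have : (0 : ℝ) < h := by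
          have : 0 < h := by omega
          exact_mod_cast this
        positivity
      have h2 : (0 : ℝ) < clusters r C h := lt_of_lt_of_le hpos hcon
      have h3 : 0 < clusters r C h := by exact_mod_cast h2
      unfold clusters at h3
      obtain ⟨y, hy⟩ := card_pos.1 h3
      rw [mem_filter, mem_Icc] at hy
      obtain ⟨⟨hy1, hy2⟩, hy3⟩ := hy
      have h4 := hh4 y (by omega) (by
        have e : 2 ^ (n + 4) = 4 * 2 ^ (n + 2) := by
          rw [show n + 4 = (n + 2) + 2 by ring, pow_add]
          ring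
        omega)
      omega
  have h2 := (card_le_card hsub).trans (card_union_le _ _)
  rw [Nat.card_Icc, Nat.add_sub_cancel] at h2
  have h3 : (((Icc 1 X).filter (fun h : ℕ => Even h ∧
        ¬ ∃ y : ℕ, n + 4 < y ∧ y + C + h < 2 ^ (n + 4) ∧ r ≤ primesIn C h y)).card : ℝ) ≤
      (9 * (n + 4) : ℕ) + (((Icc 1 X).filter (fun h : ℕ => Even h ∧
        (clusters r C h : ℝ) < h / Real.log h ^ D)).card : ℝ) := by exact_mod_cast h2
  have h4 : ((9 * (n + 4) : ℕ) : ℝ) ≤ ε / 2 * X := by
    have e1 : 18 / ε ≤ M := (Nat.le_ceil _).trans (by exact_mod_cast hM3)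
    rw [div_le_iff₀ hε] at e1
    have e2 : (M : ℝ) * (n + 4) ≤ X := by exact_mod_cast hX1
    have e3 : (0 : ℝ) ≤ (n : ℝ) + 4 := by positivity
    push_cast
    nlinarith
  linarith

end Pool.Agent.Results.MP_b51559_nt.ClustersAlmostAllDifferences
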