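import Pool.Agent.T2H22.BG.Fin

/-!
# Bounded intervals with many solutions of Goldbach's problem

For every `r` there is `C` such that for a positive proportion of the integers `n` the system
`φ (n - x) + 1 = n - x`, `φ (n + x) + 1 = n + x` has `r` solutions `x > 0` in an interval of length `C`.
-/

set_option autoImplicit false

namespace Pool.Agent.Results.MP_967f73_nt.ClustersOfSolutions

open Finset

/-- `x` is a solution of the system for `n` -/
def Solution (n x : ℕ) : Prop :=
  x < n ∧ Nat.totient (n - x) + 1 = n - x ∧ Nat.totient (n + x) + 1 = n + x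

open Classical in
/-- the number of the solutions `x` in `[y, y + C]` -/
noncomputable def solutionsIn (C n y : ℕ) : ℕ :=
  ((Icc y (y + C)).filter (fun x => Solution n x)).card

open Classical in
/-- the number of the `y ∈ [1, n]` such that the interval `[y, y + C]` contains at least `r` solutions -/
noncomputable def clusters (r C n : ℕ) : ℕ :=
  ((Icc 1 n).filter (fun y => r ≤ solutionsIn C n y)).card

open Classical in
/-- **Clusters of Goldbach representations.** For every `r` there are `C`, `D` and `c > 0` such that for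
all large `X` at least `c X` of the integers `n ≤ X` have the following property: at least
`c n / (log n) ^ D` intervals `[y, y + C]` with `1 ≤ y ≤ n` contain at least `r` solutions `x` of the
system. In particular `2 n` is a sum of two primes in `r` ways such that the smaller primes differ by at
most `C`. -/
theorem result (r : ℕ) : ∃ (C D : ℕ) (c : ℝ), 0 < c ∧ ∃ X₀ : ℕ, ∀ X : ℕ, X₀ ≤ X →
    c * X ≤ (((Icc 1 X).filter (fun n : ℕ => c * (n / Real.log n ^ D) ≤ (clusters r C n : ℝ))).card : ℝ) := by
  have hphi : ∀ a : ℕ, a.Prime → Nat.totient a + 1 = a := by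
    intro a ha
    rw [Nat.totient_prime ha]
    have := ha.pos
    omega
  obtain ⟨C, D, c, hc, X₀, h⟩ := Pool.Agent.T2H22.BG.main r
  refine ⟨C, D, c / 12, by positivity, max (12 * X₀) 24, ?_⟩
  intro X hX
  have hX1 : 12 * X₀ ≤ X := (le_max_left _ _).trans hX
  have hX2 : 24 ≤ X := (le_max_right _ _).trans hX
  set Y : ℕ := X / 6 with hY
  have hY1 : X₀ ≤ Y := by omega
  have hY2 : 4 ≤ Y := by omega
  have h1 := h Y hY1
  have hYX : (X : ℝ) ≤ 12 * Y := by
    have : X ≤ 12 * Y := by omega
    exact_mod_cast this
  have h2 : c / 12 * X ≤ c * Y := by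
    calc c / 12 * X ≤ c / 12 * (12 * Y) := mul_le_mul_of_nonneg_left hYX (by positivity)
      _ = c * Y := by ring
  refine h2.trans (h1.trans ?_)
  apply Nat.cast_le.2
  apply card_le_card
  intro n hn
  rw [mem_filter, mem_Icc] at hn
  rw [mem_filter, mem_Icc]
  obtain ⟨⟨hn1, hn2⟩, hn3⟩ := hn
  refine ⟨⟨by omega, by omega⟩, ?_⟩
  have hYr : (4 : ℝ) ≤ Y := by exact_mod_cast hY2
  have hlY : 0 < Real.log Y := Real.log_pos (by linarith)
  have hnY : (Y : ℝ) ≤ n := by
    have : Y ≤ n := by omega
    exact_mod_cast this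
  have hn6 : (n : ℝ) ≤ 6 * Y := by exact_mod_cast hn2
  have hln : Real.log Y ≤ Real.log n := Real.log_le_log (by linarith) hnY
  have h3 : c / 12 * (n / Real.log n ^ D) ≤ c * (Y / Real.log Y ^ D) := by
    calc c / 12 * (n / Real.log n ^ D) ≤ c / 12 * (12 * Y / Real.log Y ^ D) := by
          apply mul_le_mul_of_nonneg_left _ (by positivity)
          apply div_le_div₀ (by positivity) (by linarith) (by positivity)
          exact pow_le_pow_left₀ hlY.le hln D
      _ = _ := by ring
  refine h3.trans (hn3.trans ?_)
  apply Nat.cast_le.2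
  unfold Pool.Agent.T2H22.BG.ny clusters
  apply card_le_card
  intro y hy
  rw [mem_filter] at hy ⊢
  refine ⟨hy.1, ?_⟩
  have h4 : Pool.Agent.T2H22.BG.ns C n y ≤ solutionsIn C n y := by
    unfold Pool.Agent.T2H22.BG.ns solutionsIn
    apply card_le_card
    intro x hx
    rw [mem_filter] at hx ⊢
    obtain ⟨e1, e2, e3, e4⟩ := hx
    exact ⟨e1, e2, hphi _ e3, hphi _ e4⟩
  omega

end Pool.Agent.Results.MP_967f73_nt.ClustersOfSolutions
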