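import Pool.Agent.TH882.I9

set_option autoImplicit false

/-!
# Isolated primes in the binary Goldbach problem

For almost all `n` a positive proportion of the expected number of solutions `x` of the system
`φ(n - x) + 1 = n - x`, `φ(n + x) + 1 = n + x` has the property that no other solution `m` of
`φ(m) + 1 = m` lies at a distance of at most `Λ log n` from `n - x`, where `Λ` is arbitrarily large.
-/

namespace Pool.Agent.Results.MP_967f73_nt.IsolatedSummand

open Finset Filter Topology

/-- The number of the integers `x` such that `n - x = p` and `n + x = q` are positive integers with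
`φ(p) + 1 = p`, `φ(q) + 1 = q`, and such that `m = p` is the only positive integer with
`φ(m) + 1 = m` and `|m - p| ≤ R`. -/
noncomputable def isolatedSols (R : ℝ) (n : ℕ) : ℕ :=
  {x : ℤ | ∃ p q : ℕ, (n : ℤ) - x = p ∧ (n : ℤ) + x = q ∧ 0 < p ∧ 0 < q ∧
    Nat.totient p + 1 = p ∧ Nat.totient q + 1 = q ∧
    ∀ m : ℕ, 0 < m → Nat.totient m + 1 = m → |(m : ℝ) - p| ≤ R → m = p}.ncard

lemma tot_iff (p : ℕ) (hp : 0 < p) : Nat.totient p + 1 = p ↔ p.Prime := by
  constructor
  · intro h
    have h1 : Nat.totient p = p - 1 := by omega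
    exact (Nat.totient_eq_iff_prime hp).1 h1
  · intro h
    rw [Nat.totient_prime h]
    have := h.pos
    omega

open Pool.Agent.TH882.IS in
/-- comparison with the isolated primes `p < N` with `N - p` prime -/
lemma rg_le (Λ R : ℝ) (n : ℕ) (hR : R ≤ Λ * Real.log (2 * n : ℕ)) :
    (RG Λ (2 * n)).card ≤ isolatedSols R n := by
  classical
  unfold isolatedSols
  have hfin : {x : ℤ | ∃ p q : ℕ, (n : ℤ) - x = p ∧ (n : ℤ) + x = q ∧ 0 < p ∧ 0 < q ∧
      Nat.totient p + 1 = p ∧ Nat.totient q + 1 = q ∧
      ∀ m : ℕ, 0 < m → Nat.totient m + 1 = m → |(m : ℝ) - p| ≤ R → m = p}.Finite := by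
    apply (Set.finite_Icc (-(n : ℤ)) n).subset
    rintro x ⟨p, q, h1, h2, h3, h4, -⟩
    rw [Set.mem_Icc]
    omega
  have hsub : ((RG Λ (2 * n)).image (fun p : ℕ => (n : ℤ) - p) : Finset ℤ) ⊆ hfin.toFinset := by
    intro x hx
    rw [mem_image] at hx
    obtain ⟨p, hp, rfl⟩ := hx
    unfold RG at hp
    rw [mem_filter, mem_range] at hp
    obtain ⟨h1, h2, h3, h4⟩ := hp
    rw [Set.Finite.mem_toFinset]
    refine ⟨p, 2 * n - p, by ring, by omega, h2.pos, by omega, (tot_iff p h2.pos).2 h2,
      (tot_iff _ (by omega)).2 h3, ?_⟩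
    intro m hm hm2 hm3
    have hmp : m.Prime := (tot_iff m hm).1 hm2
    rw [abs_le] at hm3
    exact h4 m hmp (by linarith [hm3.2]) (by linarith [hm3.1])
  have hinj : Function.Injective (fun p : ℕ => (n : ℤ) - p) := by
    intro a b hab
    simp only at hab
    omega
  have h1 := card_le_card hsub
  rw [card_image_of_injective _ hinj] at h1
  rw [Set.ncard_eq_toFinset_card _ hfin]
  exact h1

/-- **Isolated primes in Goldbach's problem.**  For every `Λ > 0` there is `c > 0` such that for all
`n` outside a set of natural density zero there are at least `c n ^ 2 / (φ(n) (log n) ^ 2)` solutions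
`x` of the system for which `m = n - x` is the only solution of `φ(m) + 1 = m` with
`|m - (n - x)| ≤ Λ log n`. -/
theorem result (Λ : ℝ) (hΛ : 0 < Λ) : ∃ c : ℝ, 0 < c ∧
    Tendsto (fun x : ℕ => ({n : ℕ | (1 ≤ n ∧ n ≤ x) ∧
      (isolatedSols (Λ * Real.log n) n : ℝ) <
        c * ((n : ℝ) ^ 2 / (Nat.totient n * Real.log n ^ 2))}.ncard : ℝ) / x) atTop (𝓝 0) := by
  classical
  obtain ⟨c, hc, hlim⟩ := Pool.Agent.TH882.IS.goldbach_iso Λ hΛ
  refine ⟨c, hc, ?_⟩
  set E : ℕ → Prop := fun N => Even N ∧ ((Pool.Agent.TH882.IS.RG Λ N).card : ℝ) <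
    c * ((N : ℝ) ^ 2 / (Nat.totient N * Real.log N ^ 2)) with hE
  set F : ℕ → Set ℕ := fun x => {n : ℕ | (1 ≤ n ∧ n ≤ x) ∧
      (isolatedSols (Λ * Real.log n) n : ℝ) <
        c * ((n : ℝ) ^ 2 / (Nat.totient n * Real.log n ^ 2))} with hF
  have hkey : ∀ x : ℕ, ((F x).ncard : ℝ) ≤ 16 + (((Icc 1 (2 * x)).filter E).card : ℝ) := by
    intro x
    have hsub : F x ⊆ ((Icc 1 16 ∪ ((Icc 1 (2 * x)).filter E).image (fun N => N / 2) : Finset ℕ) :
        Set ℕ) := by
      rintro n ⟨⟨hn1, hnx⟩, hn⟩
      rw [mem_coe, mem_union]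
      by_cases h16 : n ≤ 16
      · left
        rw [mem_Icc]
        exact ⟨hn1, h16⟩
      · right
        push Not at h16
        rw [mem_image]
        refine ⟨2 * n, ?_, by omega⟩
        rw [mem_filter, mem_Icc]
        refine ⟨by omega, even_two_mul n, ?_⟩
        have hnr : (16 : ℝ) < n := by exact_mod_cast h16
        have hn0 : (0 : ℝ) < n := by linarith
        have hln : 0 < Real.log n := Real.log_pos (by linarith)
        have h2n : Real.log ((2 * n : ℕ) : ℝ) = Real.log 2 + Real.log n := by
          push_cast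
          exact Real.log_mul (by norm_num) hn0.ne'
        have hl4 : 4 * Real.log 2 ≤ Real.log n := by
          have e1 : 4 * Real.log 2 = Real.log (16 : ℝ) := by
            rw [show (16 : ℝ) = 2 ^ 4 by norm_num, Real.log_pow]
            norm_num
          rw [e1]
          exact Real.log_le_log (by norm_num) hnr.le
        have hl2 : 0 < Real.log 2 := Real.log_pos (by norm_num)
        have hsq : Real.log ((2 * n : ℕ) : ℝ) ^ 2 ≤ 2 * Real.log n ^ 2 := by
          rw [h2n]
          nlinarith
        have hlN : 0 < Real.log ((2 * n : ℕ) : ℝ) := by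
          rw [h2n]
          linarith
        have hφ : (0 : ℝ) < Nat.totient n := by exact_mod_cast Nat.totient_pos.2 hn1
        have hφ2 : (0 : ℝ) < Nat.totient (2 * n) := by
          exact_mod_cast Nat.totient_pos.2 (by omega)
        have hφ3 : (Nat.totient (2 * n) : ℝ) ≤ 2 * Nat.totient n := by
          have e1 : Nat.totient (2 * n) ≤ 2 * Nat.totient n := by
            rcases Nat.even_or_odd n with he | ho
            · have := Nat.totient_mul_of_prime_of_dvd Nat.prime_two he.two_dvd
              omega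
            · have := Nat.totient_mul_of_prime_of_not_dvd Nat.prime_two
                (fun h => (Nat.not_even_iff_odd.2 ho) (even_iff_two_dvd.2 h))
              omega
          exact_mod_cast e1
        have hcmp : (n : ℝ) ^ 2 / (Nat.totient n * Real.log n ^ 2) ≤
            (((2 * n : ℕ) : ℝ)) ^ 2 / (Nat.totient (2 * n) * Real.log ((2 * n : ℕ) : ℝ) ^ 2) := by
          rw [div_le_div_iff₀ (by positivity) (by positivity)]
          have e1 : (Nat.totient (2 * n) : ℝ) * Real.log ((2 * n : ℕ) : ℝ) ^ 2 ≤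
              (2 * Nat.totient n) * (2 * Real.log n ^ 2) :=
            mul_le_mul hφ3 hsq (by positivity) (by positivity)
          calc (n : ℝ) ^ 2 * ((Nat.totient (2 * n) : ℝ) * Real.log ((2 * n : ℕ) : ℝ) ^ 2)
              ≤ (n : ℝ) ^ 2 * ((2 * Nat.totient n) * (2 * Real.log n ^ 2)) :=
                mul_le_mul_of_nonneg_left e1 (by positivity)
            _ = (((2 * n : ℕ) : ℝ)) ^ 2 * (Nat.totient n * Real.log n ^ 2) := by
                push_cast
                ring
        have hle := rg_le Λ (Λ * Real.log n) n (by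
          rw [h2n]
          nlinarith)
        have hle' : ((Pool.Agent.TH882.IS.RG Λ (2 * n)).card : ℝ) ≤
            isolatedSols (Λ * Real.log n) n := by exact_mod_cast hle
        exact lt_of_le_of_lt hle' (lt_of_lt_of_le hn (mul_le_mul_of_nonneg_left hcmp hc.le))
    have h1 := Set.ncard_le_ncard hsub (Finset.finite_toSet _)
    rw [Set.ncard_coe_finset] at h1
    have h2 := (card_union_le (Icc 1 16) (((Icc 1 (2 * x)).filter E).image (fun N => N / 2)))
    have h3 : (((Icc 1 (2 * x)).filter E).image (fun N => N / 2)).card ≤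
      ((Icc 1 (2 * x)).filter E).card := card_image_le
    have h4 : (Icc 1 16 : Finset ℕ).card = 16 := by simp
    have h5 : (F x).ncard ≤ 16 + ((Icc 1 (2 * x)).filter E).card := by omega
    exact_mod_cast h5
  have hlim2 : Tendsto (fun x : ℕ => (((Icc 1 (2 * x)).filter E).card : ℝ) / ((2 * x : ℕ) : ℝ))
      atTop (𝓝 0) := by
    have h2x : Tendsto (fun x : ℕ => 2 * x) atTop atTop :=
      tendsto_id.const_mul_atTop' (by norm_num)
    have := hlim.comp h2x
    refine Tendsto.congr (fun x => ?_) this
    simp only [Function.comp, hE]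
  have hlim3 : Tendsto (fun x : ℕ => 16 / (x : ℝ) + 2 *
      ((((Icc 1 (2 * x)).filter E).card : ℝ) / ((2 * x : ℕ) : ℝ))) atTop (𝓝 0) := by
    have e1 : Tendsto (fun x : ℕ => (16 : ℝ) / (x : ℝ)) atTop (𝓝 0) :=
      tendsto_const_div_atTop_nhds_zero_nat 16
    have e2 := e1.add (hlim2.const_mul 2)
    simpa using e2
  refine squeeze_zero' (Eventually.of_forall fun x => by positivity) ?_ hlim3
  filter_upwards [eventually_ge_atTop 1] with x hx
  have hx0 : (0 : ℝ) < x := by exact_mod_cast hx
  calc ((F x).ncard : ℝ) / x ≤ (16 + (((Icc 1 (2 * x)).filter E).card : ℝ)) / x :=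
        div_le_div_of_nonneg_right (hkey x) hx0.le
    _ = 16 / (x : ℝ) + 2 * ((((Icc 1 (2 * x)).filter E).card : ℝ) / ((2 * x : ℕ) : ℝ)) := by
        push_cast
        field_simp

end Pool.Agent.Results.MP_967f73_nt.IsolatedSummand
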