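import Pool.Agent.T2H22.NP.A

set_option autoImplicit false

/-!
# Almost all solutions lie in narrow progressions of solutions, for every `n`

For every large `n` and every window of length at least `n ^ θ`, all but `ε` times the expected number
of the solutions `x` of the system `φ(n - x) + 1 = n - x`, `φ(n + x) + 1 = n + x` in the window lie in
progressions of `k` solutions with a difference of at most `(log n) ^ B`. The same is true for every
subset of the solutions, and if `n - x`, `n + x` may be primes or integers without small prime factors.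
-/

namespace Pool.Agent.Results.MP_967f73_nt.NarrowProgressions

open Finset

/-- `m` satisfies `φ(m) + 1 = m`, or all prime factors of `m` are larger than `n ^ (1 / r)`. -/
def PrimeOrRough (r n m : ℕ) : Prop :=
  Nat.totient m + 1 = m ∨ ∀ q : ℕ, q.Prime → q ∣ m → (n : ℝ) ^ (1 / (r : ℝ)) < q

/-- `n - x` and `n + x` are positive, and each of them is `PrimeOrRough`. -/
def Sol (r n : ℕ) (x : ℤ) : Prop :=
  ∃ a b : ℕ, 0 < a ∧ 0 < b ∧ (n : ℤ) - x = a ∧ (n : ℤ) + x = b ∧ PrimeOrRough r n a ∧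
    PrimeOrRough r n b

/-- `x` is a term of an arithmetic progression of `k` elements of `S` whose difference is positive
and at most `D`. -/
def InProgression (k : ℕ) (D : ℝ) (S : Finset ℤ) (x : ℤ) : Prop :=
  ∃ a d : ℤ, 1 ≤ d ∧ (d : ℝ) ≤ D ∧ (∀ j : ℕ, j < k → a + j * d ∈ S) ∧ ∃ j : ℕ, j < k ∧ x = a + j * d

open Classical in
/-- the elements of `S` which are in no such progression -/
noncomputable def outside (k : ℕ) (D : ℝ) (S : Finset ℤ) : Finset ℤ :=
  S.filter (fun x => ¬ InProgression k D S x)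

lemma tot_iff (p : ℕ) (hp : 0 < p) : Nat.totient p + 1 = p ↔ p.Prime := by
  constructor
  · intro h
    have h1 : Nat.totient p = p - 1 := by omega
    exact (Nat.totient_eq_iff_prime hp).1 h1
  · intro h
    rw [Nat.totient_prime h]
    have := h.pos
    omega

open Pool.Agent.T2H22.NP Pool.Agent.Y843.HG in
lemma pr_of (r n m : ℕ) (hr : 1 ≤ r) (hm : 0 < m) (h : PrimeOrRough r n m) :
    PR (2 * r) (2 * n) m ∨ n < 2 := by
  by_cases hn : n < 2
  · right; exact hn
  left
  push Not at hn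
  rcases h with h | h
  · left
    exact (tot_iff m hm).1 h
  · right
    intro q hq hqm
    refine lt_of_le_of_lt ?_ (h q hq hqm)
    have hnr : (2 : ℝ) ≤ n := by exact_mod_cast hn
    have hr0 : (0 : ℝ) < r := by exact_mod_cast hr
    have e1 : (((2 * n : ℕ) : ℝ)) ≤ (n : ℝ) ^ (2 : ℝ) := by
      rw [Real.rpow_two]
      push_cast
      nlinarith
    calc (((2 * n : ℕ) : ℝ)) ^ (1 / ((2 * r : ℕ) : ℝ)) ≤ ((n : ℝ) ^ (2 : ℝ)) ^ (1 / ((2 * r : ℕ) : ℝ)) :=
          Real.rpow_le_rpow (by positivity) e1 (by positivity)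
      _ = (n : ℝ) ^ (1 / (r : ℝ)) := by
          rw [← Real.rpow_mul (by positivity)]
          congr 1
          push_cast
          field_simp

/-- **Narrow progressions of solutions, for every large `n`.** Let `k ≥ 1`, `r ≥ 1`, `θ > 0` and
`ε > 0`. There is `B` such that for all large `n` and all intervals `(y₁, y₂] ⊆ [-n, n]` with
`y₂ - y₁ ≥ n ^ θ`: every set `S` of integers `x` of `(y₁, y₂]`, such that `n - x` and `n + x` are
prime or have no prime factor `≤ n ^ (1 / r)`, has at most `ε (y₂ - y₁) n / (φ(n) (log n) ^ 2)`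
elements outside of the progressions of `k` elements of `S` with a positive difference
`≤ (log n) ^ B`. -/
theorem result (k r : ℕ) (hk : 1 ≤ k) (hr : 1 ≤ r) (θ ε : ℝ) (hθ : 0 < θ) (hε : 0 < ε) :
    ∃ B n₀ : ℕ, ∀ n : ℕ, n₀ ≤ n → ∀ y₁ y₂ : ℤ, -(n : ℤ) ≤ y₁ → y₂ ≤ n →
      (n : ℝ) ^ θ ≤ (y₂ : ℝ) - y₁ → ∀ S : Finset ℤ, S ⊆ Ioc y₁ y₂ → (∀ x ∈ S, Sol r n x) →
        ((outside k (Real.log n ^ B) S).card : ℝ) ≤
          ε * (((y₂ : ℝ) - y₁) * (n / (Nat.totient n * Real.log n ^ 2))) := by
  classical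
  obtain ⟨B, n₁, h1⟩ := Pool.Agent.T2H22.NP.goldR hk (2 * r) (by omega) (show 0 < θ / 2 by positivity)
    (show 0 < ε / 2 by positivity)
  refine ⟨2 * B, max n₁ 16, fun n hn y₁ y₂ hy1 hy2 hy S hS hsol => ?_⟩
  have hn1 : n₁ ≤ n := (le_max_left _ _).trans hn
  have hn16 : 16 ≤ n := (le_max_right _ _).trans hn
  have hnr : (16 : ℝ) ≤ n := by exact_mod_cast hn16
  have hn0 : (0 : ℝ) < n := by linarith
  obtain ⟨y, hyy⟩ : ∃ y : ℕ, (y : ℤ) = n + y₁ := ⟨(n + y₁).toNat, by omega⟩
  have hpos : (0 : ℝ) < (y₂ : ℝ) - y₁ := lt_of_lt_of_le (by positivity) hy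
  have hposz : y₁ < y₂ := by
    have : (y₁ : ℝ) < y₂ := by linarith
    exact_mod_cast this
  obtain ⟨H, hHH⟩ : ∃ H : ℕ, (H : ℤ) = y₂ - y₁ := ⟨(y₂ - y₁).toNat, by omega⟩
  have hHr : (H : ℝ) = (y₂ : ℝ) - y₁ := by
    have : ((H : ℤ) : ℝ) = ((y₂ - y₁ : ℤ) : ℝ) := by rw [hHH]
    push_cast at this
    exact this
  set f : ℤ → ℕ := fun x => ((n : ℤ) + x).toNat with hf
  set T : Finset ℕ := S.image f with hT
  have hmemS : ∀ x ∈ S, 0 ≤ (n : ℤ) + x := by
    intro x hx
    have := mem_Ioc.1 (hS hx)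
    omega
  have hfx : ∀ x ∈ S, ((f x : ℕ) : ℤ) = n + x := by
    intro x hx
    exact Int.toNat_of_nonneg (hmemS x hx)
  have hinj : Set.InjOn f S := by
    intro a ha b hb hab
    have e1 := hfx a ha
    have e2 := hfx b hb
    rw [hab] at e1
    omega
  have hTT : T ⊆ Ioc y (y + H) := by
    intro m hm
    rw [hT, mem_image] at hm
    obtain ⟨x, hx, rfl⟩ := hm
    have e1 := hfx x hx
    have e2 := mem_Ioc.1 (hS hx)
    rw [mem_Ioc]
    omega
  have hTP : ∀ m ∈ T, Pool.Agent.T2H22.NP.PR (2 * r) (2 * n) m ∧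
      Pool.Agent.T2H22.NP.PR (2 * r) (2 * n) (2 * n - m) := by
    intro m hm
    rw [hT, mem_image] at hm
    obtain ⟨x, hx, rfl⟩ := hm
    obtain ⟨a, b, ha, hb, hab, hab2, h3, h4⟩ := hsol x hx
    have e1 := hfx x hx
    have e2 : f x = b := by omega
    have e3 : 2 * n - f x = a := by omega
    rw [e3, e2]
    constructor
    · rcases pr_of r n b hr hb h4 with h | h
      · exact h
      · omega
    · rcases pr_of r n a hr ha h3 with h | h
      · exact h
      · omega
  have h2n : ((2 * n : ℕ) : ℝ) ^ (θ / 2) ≤ (H : ℝ) := by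
    have e1 : (((2 * n : ℕ) : ℝ)) ≤ (n : ℝ) ^ (2 : ℝ) := by
      rw [Real.rpow_two]
      push_cast
      nlinarith
    calc ((2 * n : ℕ) : ℝ) ^ (θ / 2) ≤ ((n : ℝ) ^ (2 : ℝ)) ^ (θ / 2) :=
          Real.rpow_le_rpow (by positivity) e1 (by positivity)
      _ = (n : ℝ) ^ θ := by
          rw [← Real.rpow_mul (by positivity)]
          congr 1
          ring
      _ ≤ H := by rw [hHr]; exact hy
  have hmain := h1 (2 * n) (by omega) (even_two_mul n) y H h2n (by omega) T hTT hTP
  -- comparison of the exceptional sets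
  have hlog2 : Real.log ((2 * n : ℕ) : ℝ) ≤ Real.log n ^ 2 := by
    have h2n : Real.log ((2 * n : ℕ) : ℝ) = Real.log 2 + Real.log n := by
      push_cast
      exact Real.log_mul (by norm_num) hn0.ne'
    have hl4 : 4 * Real.log 2 ≤ Real.log n := by
      have e1 : 4 * Real.log 2 = Real.log (16 : ℝ) := by
        rw [show (16 : ℝ) = 2 ^ 4 by norm_num, Real.log_pow]
        norm_num
      rw [e1]
      exact Real.log_le_log (by norm_num) hnr
    have hl2 : 0.69 < Real.log 2 := by
      have := Real.log_two_gt_d9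
      linarith
    rw [h2n]
    nlinarith
  have hlogn : 0 < Real.log n := Real.log_pos (by linarith)
  have hlog2n : 0 ≤ Real.log ((2 * n : ℕ) : ℝ) := by
    apply Real.log_nonneg
    push_cast
    linarith
  have hsub : (outside k (Real.log n ^ (2 * B)) S).image f ⊆
      Pool.Agent.Y843.HG.Iso k (Real.log ((2 * n : ℕ) : ℝ) ^ B) T := by
    intro m hm
    rw [mem_image] at hm
    obtain ⟨x, hx, rfl⟩ := hm
    unfold outside at hx
    rw [mem_filter] at hx
    obtain ⟨hxS, hx2⟩ := hx
    unfold Pool.Agent.Y843.HG.Iso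
    rw [mem_filter]
    refine ⟨by rw [hT]; exact mem_image_of_mem f hxS, fun hcon => hx2 ?_⟩
    obtain ⟨a, d, hd1, hd2, h3, j, hj, h4⟩ := hcon
    refine ⟨(a : ℤ) - n, d, by exact_mod_cast hd1, ?_, ?_, j, hj, ?_⟩
    · have : (d : ℝ) ≤ Real.log n ^ (2 * B) := by
        refine hd2.trans ?_
        rw [pow_mul]
        exact pow_le_pow_left₀ hlog2n hlog2 B
      exact_mod_cast this
    · intro i hi
      have h5 := h3 i hi
      rw [hT, mem_image] at h5
      obtain ⟨z, hz, hz2⟩ := h5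
      have e1 := hfx z hz
      have e2 : z = (a : ℤ) - n + (i : ℤ) * (d : ℤ) := by
        have e3 : ((f z : ℕ) : ℤ) = (a : ℤ) + (i : ℤ) * d := by
          rw [hz2]
          push_cast
          ring
        rw [e1] at e3
        linarith
      rw [← e2]
      exact hz
    · have e1 := hfx x hxS
      have e3 : ((f x : ℕ) : ℤ) = (a : ℤ) + (j : ℤ) * d := by
        rw [h4]
        push_cast
        ring
      rw [e1] at e3
      linarith
  have hcard : (outside k (Real.log n ^ (2 * B)) S).card ≤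
      (Pool.Agent.Y843.HG.Iso k (Real.log ((2 * n : ℕ) : ℝ) ^ B) T).card := by
    have e1 := card_le_card hsub
    rw [card_image_of_injOn] at e1
    · exact e1
    · intro a ha b hb hab
      have ha' : a ∈ S := (mem_filter.1 ha).1
      have hb' : b ∈ S := (mem_filter.1 hb).1
      exact hinj ha' hb' hab
  have hcard' : ((outside k (Real.log n ^ (2 * B)) S).card : ℝ) ≤
      ((Pool.Agent.Y843.HG.Iso k (Real.log ((2 * n : ℕ) : ℝ) ^ B) T).card : ℝ) := by
    exact_mod_cast hcard
  refine (hcard'.trans hmain).trans ?_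
  rw [hHr]
  have hφ : (0 : ℝ) < Nat.totient n := by exact_mod_cast Nat.totient_pos.2 (by omega)
  have hφ2 : (0 : ℝ) < Nat.totient (2 * n) := by exact_mod_cast Nat.totient_pos.2 (by omega)
  have hφ3 : (Nat.totient n : ℝ) ≤ Nat.totient (2 * n) := by
    have : Nat.totient n ≤ Nat.totient (2 * n) :=
      Nat.le_of_dvd (Nat.totient_pos.2 (by omega)) (Nat.totient_dvd_of_dvd (Dvd.intro_left 2 rfl))
    exact_mod_cast this
  have hlog3 : Real.log n ≤ Real.log ((2 * n : ℕ) : ℝ) := by
    apply Real.log_le_log hn0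
    push_cast
    linarith
  have hfin : (((2 * n : ℕ) : ℝ)) / (Nat.totient (2 * n) * Real.log ((2 * n : ℕ) : ℝ) ^ 2) ≤
      2 * (n / (Nat.totient n * Real.log n ^ 2)) := by
    rw [← mul_div_assoc]
    push_cast
    apply div_le_div₀ (by positivity) le_rfl (by positivity)
    apply mul_le_mul hφ3 _ (by positivity) (by positivity)
    have := pow_le_pow_left₀ hlogn.le hlog3 2
    push_cast at this
    exact this
  calc ε / 2 * (((y₂ : ℝ) - y₁) * (((2 * n : ℕ) : ℝ) / (Nat.totient (2 * n) *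
        Real.log ((2 * n : ℕ) : ℝ) ^ 2)))
      ≤ ε / 2 * (((y₂ : ℝ) - y₁) * (2 * (n / (Nat.totient n * Real.log n ^ 2)))) := by
        apply mul_le_mul_of_nonneg_left _ (by positivity)
        exact mul_le_mul_of_nonneg_left hfin hpos.le
    _ = ε * (((y₂ : ℝ) - y₁) * (n / (Nat.totient n * Real.log n ^ 2))) := by ring

end Pool.Agent.Results.MP_967f73_nt.NarrowProgressions
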